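import Mathlib

/-! # The Schrijver number: definitions, weak duality, simple bounds -/

namespace Pool.Agent.Q322.SN

open Finset

/-- The feasible matrices of the Schrijver number of `G`: real positive semidefinite matrices
with nonnegative entries, trace one, vanishing on the edges of `G`. -/
def Feasible {V : Type*} [Fintype V] (G : SimpleGraph V) (X : Matrix V V ℝ) : Prop :=
  X.PosSemidef ∧ (∀ u v, 0 ≤ X u v) ∧ X.trace = 1 ∧ ∀ u v, G.Adj u v → X u v = 0

/-- The Schrijver number: the largest sum of the entries of a feasible matrix. -/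
noncomputable def schrijver {V : Type*} [Fintype V] (G : SimpleGraph V) : ℝ :=
  sSup {t : ℝ | ∃ X : Matrix V V ℝ, Feasible G X ∧ t = ∑ u, ∑ v, X u v}

/-- The strong product of a family of graphs: distinct tuples are adjacent when in each
coordinate they are equal or adjacent. -/
def strongProd {ι : Type*} {V : ι → Type*} (G : ∀ i, SimpleGraph (V i)) :
    SimpleGraph (∀ i, V i) where
  Adj x y := x ≠ y ∧ ∀ i, x i = y i ∨ (G i).Adj (x i) (y i)
  symm := ⟨fun _ _ h => ⟨h.1.symm, fun i => (h.2 i).elim (fun e => Or.inl e.symm)
    fun a => Or.inr a.symm⟩⟩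
  loopless := ⟨fun _ h => h.1 rfl⟩

section psd

variable {V : Type*} [Fintype V]

theorem dot_eq (X : Matrix V V ℝ) (f : V → ℝ) :
    star f ⬝ᵥ (X.mulVec f) = ∑ u, ∑ v, f u * X u v * f v := by
  simp only [dotProduct, Matrix.mulVec, Pi.star_apply, star_trivial]
  refine Finset.sum_congr rfl fun u _ => ?_
  rw [Finset.mul_sum]
  refine Finset.sum_congr rfl fun v _ => ?_
  ring

theorem psd_iff (X : Matrix V V ℝ) :
    X.PosSemidef ↔ (∀ u v, X u v = X v u) ∧ ∀ f : V → ℝ, 0 ≤ ∑ u, ∑ v, f u * X u v * f v := by
  constructor
  · intro h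
    refine ⟨fun u v => ?_, fun f => ?_⟩
    · have := h.isHermitian.apply u v
      simpa using this.symm
    · have := h.dotProduct_mulVec_nonneg f
      rwa [dot_eq] at this
  · rintro ⟨h1, h2⟩
    refine Matrix.PosSemidef.of_dotProduct_mulVec_nonneg ?_ fun f => ?_
    · refine Matrix.IsHermitian.ext fun u v => ?_
      simpa using h1 v u
    · rw [dot_eq]
      exact h2 f

end psd

section bounds

variable {V : Type*} [Fintype V] [DecidableEq V] {G : SimpleGraph V}

/-- entries of a feasible matrix are bounded by the mean of the diagonal entries -/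
theorem entry_le {X : Matrix V V ℝ} (hX : X.PosSemidef) (u v : V) :
    2 * X u v ≤ X u u + X v v := by
  have h := ((psd_iff X).1 hX).2 (fun w => (if w = u then 1 else 0) - (if w = v then 1 else 0))
  have hs := ((psd_iff X).1 hX).1 u v
  have : (∑ a, ∑ b, ((if a = u then (1:ℝ) else 0) - (if a = v then 1 else 0)) * X a b *
      ((if b = u then (1:ℝ) else 0) - (if b = v then 1 else 0))) =
      X u u - X u v - X v u + X v v := by
    have e : ∀ a b : V, ((if a = u then (1:ℝ) else 0) - (if a = v then 1 else 0)) * X a b *
      ((if b = u then (1:ℝ) else 0) - (if b = v then 1 else 0)) =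
      (if a = u then (if b = u then X a b else 0) else 0)
      - (if a = u then (if b = v then X a b else 0) else 0)
      - (if a = v then (if b = u then X a b else 0) else 0)
      + (if a = v then (if b = v then X a b else 0) else 0) := by
      intro a b
      split_ifs <;> ring
    simp only [e, Finset.sum_add_distrib, Finset.sum_sub_distrib]
    simp
  rw [this] at h
  linarith

theorem sum_le_card {X : Matrix V V ℝ} (hX : Feasible G X) :
    ∑ u, ∑ v, X u v ≤ Fintype.card V := by
  obtain ⟨h1, h2, h3, h4⟩ := hX
  have e : ∑ u, X u u = 1 := by simpa [Matrix.trace] using h3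
  have : 2 * ∑ u, ∑ v, X u v ≤ ∑ u : V, ∑ v : V, (X u u + X v v) := by
    rw [Finset.mul_sum]
    refine Finset.sum_le_sum fun u _ => ?_
    rw [Finset.mul_sum]
    exact Finset.sum_le_sum fun v _ => entry_le h1 u v
  simp only [Finset.sum_add_distrib, Finset.sum_const, Finset.card_univ, e, nsmul_eq_mul,
    ← Finset.mul_sum] at this
  linarith

theorem bddAbove : BddAbove {t : ℝ | ∃ X : Matrix V V ℝ, Feasible G X ∧ t = ∑ u, ∑ v, X u v} := by
  refine ⟨Fintype.card V, ?_⟩
  rintro t ⟨X, hX, rfl⟩
  exact sum_le_card hX

theorem le_schrijver {X : Matrix V V ℝ} (hX : Feasible G X) :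
    ∑ u, ∑ v, X u v ≤ schrijver G :=
  le_csSup bddAbove ⟨X, hX, rfl⟩

/-- two distinct nonadjacent vertices give the value two -/
theorem two_le {a b : V} (hab : a ≠ b) (hn : ¬ G.Adj a b) : 2 ≤ schrijver G := by
  let c : V → ℝ := fun w => (if w = a then 1 else 0) + (if w = b then 1 else 0)
  let X : Matrix V V ℝ := fun u v => c u * c v / 2
  have hc0 : ∀ w, 0 ≤ c w := by
    intro w; simp only [c]; split_ifs <;> norm_num
  have hc1 : ∑ w, c w = 2 := by
    simp only [c, Finset.sum_add_distrib, Finset.sum_ite_eq', Finset.mem_univ, if_true]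
    norm_num
  have hF : Feasible G X := by
    refine ⟨?_, ?_, ?_, ?_⟩
    · rw [psd_iff]
      refine ⟨fun u v => by simp only [X]; ring, fun f => ?_⟩
      have : ∑ u, ∑ v, f u * X u v * f v = (∑ u, f u * c u) ^ 2 / 2 := by
        rw [pow_two, Finset.sum_mul_sum, Finset.sum_div]
        refine Finset.sum_congr rfl fun u _ => ?_
        rw [Finset.sum_div]
        refine Finset.sum_congr rfl fun v _ => ?_
        simp only [X]; ring
      rw [this]; positivity
    · intro u v
      exact div_nonneg (mul_nonneg (hc0 u) (hc0 v)) (by norm_num)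
    · have : ∀ w, c w * c w / 2 = ((if w = a then 1 else 0) + (if w = b then 1 else 0)) / 2 := by
        intro w
        simp only [c]
        by_cases h1 : w = a
        · subst h1; simp [hab]
        · by_cases h2 : w = b
          · subst h2; simp [h1]
          · simp [h1, h2]
      simp only [Matrix.trace, Matrix.diag_apply, X, this, ← Finset.sum_div,
        Finset.sum_add_distrib, Finset.sum_ite_eq', Finset.mem_univ, if_true]
      norm_num
    · intro u v huv
      have hne : u ≠ v := huv.ne
      simp only [X, c]
      by_cases h1 : u = a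
      · subst h1
        have : v ≠ b := fun e => hn (e ▸ huv)
        simp [this, hne.symm]
      · by_cases h2 : u = b
        · subst h2
          have : v ≠ a := fun e => hn (e ▸ huv.symm)
          simp [this, hne.symm]
        · simp [h1, h2]
  have h := le_schrijver hF
  have : ∑ u, ∑ v, X u v = 2 := by
    simp only [X, ← Finset.sum_div, ← Finset.mul_sum, ← Finset.sum_mul, hc1]
    norm_num
  linarith

/-- weak duality in the form we need: a kernel `P` with `P u u ≤ t`, `P ≤ 0` at distinct
nonadjacent pairs, and `P - J` of the form `∑ i, a i ⊗ a i`. -/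
theorem schrijver_le [Nonempty V] {ι : Type*} [Fintype ι] (P : V → V → ℝ) (t : ℝ)
    (a : ι → V → ℝ) (hP : ∀ u v, P u v = 1 + ∑ i, a i u * a i v)
    (hd : ∀ u, P u u ≤ t) (hn : ∀ u v, u ≠ v → ¬ G.Adj u v → P u v ≤ 0) :
    schrijver G ≤ t := by
  refine csSup_le ?_ ?_
  · -- nonempty
    obtain ⟨w⟩ := ‹Nonempty V›
    let c : V → ℝ := fun u => if u = w then 1 else 0
    let X : Matrix V V ℝ := fun u v => c u * c v
    have hc0 : ∀ u, 0 ≤ c u := by
      intro u; simp only [c]; split_ifs <;> norm_num
    refine ⟨_, X, ⟨?_, ?_, ?_, ?_⟩, rfl⟩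
    · rw [psd_iff]
      refine ⟨fun u v => by simp only [X]; ring, fun f => ?_⟩
      have : ∑ u, ∑ v, f u * X u v * f v = (∑ u, f u * c u) ^ 2 := by
        rw [pow_two, Finset.sum_mul_sum]
        refine Finset.sum_congr rfl fun u _ => ?_
        refine Finset.sum_congr rfl fun v _ => ?_
        simp only [X]; ring
      rw [this]; positivity
    · intro u v
      exact mul_nonneg (hc0 u) (hc0 v)
    · simp [Matrix.trace, X, c]
    · intro u v huv
      have hne : u ≠ v := huv.ne
      simp only [X, c]
      by_cases h1 : u = w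
      · subst h1
        simp [hne.symm]
      · simp [h1]
  · rintro s ⟨X, ⟨h1, h2, h3, h4⟩, rfl⟩
    have e : ∑ u, X u u = 1 := by simpa [Matrix.trace] using h3
    have hq := ((psd_iff X).1 h1).2
    have k1 : ∑ u, ∑ v, X u v * P u v ≤ t := by
      have : ∑ u, ∑ v, X u v * P u v ≤ ∑ u, ∑ v, (if u = v then X u u * t else 0) := by
        refine Finset.sum_le_sum fun u _ => Finset.sum_le_sum fun v _ => ?_
        by_cases huv : u = v
        · subst huv
          rw [if_pos rfl]
          exact mul_le_mul_of_nonneg_left (hd u) (h2 u u)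
        · rw [if_neg huv]
          by_cases ha : G.Adj u v
          · rw [h4 u v ha]; simp
          · exact mul_nonpos_of_nonneg_of_nonpos (h2 u v) (hn u v huv ha)
      refine this.trans ?_
      simp only [Finset.sum_ite_eq, Finset.mem_univ, if_true, ← Finset.sum_mul, e]
      simp
    have k2 : ∑ u, ∑ v, X u v * P u v = ∑ u, ∑ v, X u v + ∑ i, ∑ u, ∑ v, a i u * X u v * a i v := by
      have : ∀ u v, X u v * P u v = X u v + ∑ i, a i u * X u v * a i v := by
        intro u v
        rw [hP, mul_add, mul_one, Finset.mul_sum]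
        congr 1
        refine Finset.sum_congr rfl fun i _ => ?_
        ring
      simp only [this, Finset.sum_add_distrib]
      congr 1
      have : ∀ u, ∑ v, ∑ i, a i u * X u v * a i v = ∑ i, ∑ v, a i u * X u v * a i v :=
        fun u => Finset.sum_comm
      simp only [this]
      exact Finset.sum_comm
    have k3 : 0 ≤ ∑ i, ∑ u, ∑ v, a i u * X u v * a i v := Finset.sum_nonneg fun i _ => hq (a i)
    linarith

/-- The Schrijver number does not decrease along an injection that reflects adjacency. -/
theorem schrijver_mono {W : Type*} [Fintype W] [DecidableEq W] [Nonempty W] {H : SimpleGraph W}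
    (φ : W → V) (hφ : Function.Injective φ) (hadj : ∀ x y, G.Adj (φ x) (φ y) → H.Adj x y)
    {X : Matrix W W ℝ} (hX : Feasible H X) :
    ∑ u, ∑ v, X u v ≤ schrijver G := by
  classical
  obtain ⟨h1, h2, h3, h4⟩ := hX
  let Y : Matrix V V ℝ := fun u v => ∑ x, ∑ y, if φ x = u ∧ φ y = v then X x y else 0
  have key : ∀ f g : V → ℝ, ∑ u, ∑ v, f u * Y u v * g v = ∑ x, ∑ y, f (φ x) * X x y * g (φ y) := by
    intro f g
    have e1 : ∀ u v, f u * Y u v * g v =
        ∑ x, ∑ y, if φ x = u ∧ φ y = v then f u * X x y * g v else 0 := by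
      intro u v
      simp only [Y, Finset.mul_sum, Finset.sum_mul]
      refine Finset.sum_congr rfl fun x _ => Finset.sum_congr rfl fun y _ => ?_
      split_ifs <;> ring
    simp only [e1]
    have e2 : ∀ u, (∑ v, ∑ x, ∑ y, if φ x = u ∧ φ y = v then f u * X x y * g v else 0) =
        ∑ x, ∑ y, if φ x = u then f u * X x y * g (φ y) else 0 := by
      intro u
      rw [Finset.sum_comm]
      refine Finset.sum_congr rfl fun x _ => ?_
      rw [Finset.sum_comm]
      refine Finset.sum_congr rfl fun y _ => ?_
      by_cases hx : φ x = u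
      · simp [hx]
      · simp [hx]
    simp only [e2]
    rw [Finset.sum_comm]
    refine Finset.sum_congr rfl fun x _ => ?_
    rw [Finset.sum_comm]
    refine Finset.sum_congr rfl fun y _ => ?_
    simp
  have hY0 : ∀ u v, 0 ≤ Y u v := fun u v => Finset.sum_nonneg fun x _ =>
    Finset.sum_nonneg fun y _ => by split_ifs; exacts [h2 x y, le_refl _]
  have hF : Feasible G Y := by
    refine ⟨?_, hY0, ?_, ?_⟩
    · rw [psd_iff]
      refine ⟨fun u v => ?_, fun f => ?_⟩
      · simp only [Y]
        rw [Finset.sum_comm]
        refine Finset.sum_congr rfl fun x _ => Finset.sum_congr rfl fun y _ => ?_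
        rw [((psd_iff X).1 h1).1 y x]
        simp only [and_comm]
      · rw [key]
        exact ((psd_iff X).1 h1).2 fun x => f (φ x)
    · have : ∀ u, Y u u = ∑ x, if φ x = u then X x x else 0 := by
        intro u
        simp only [Y]
        refine Finset.sum_congr rfl fun x _ => ?_
        by_cases hx : φ x = u
        · rw [if_pos hx, Finset.sum_eq_single x]
          · simp [hx]
          · intro y _ hy
            rw [if_neg]
            rintro ⟨a, b⟩
            exact hy (hφ (b.trans a.symm))
          · intro h; exact absurd (Finset.mem_univ _) h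
        · simp [hx]
      simp only [Matrix.trace, Matrix.diag_apply, this]
      rw [Finset.sum_comm]
      simpa [Matrix.trace] using h3
    · intro u v huv
      refine Finset.sum_eq_zero fun x _ => Finset.sum_eq_zero fun y _ => ?_
      split_ifs with h
      · obtain ⟨rfl, rfl⟩ := h
        exact h4 x y (hadj x y huv)
      · rfl
  have h := le_schrijver hF
  have e := key (fun _ => 1) (fun _ => 1)
  simp only [one_mul, mul_one] at e
  rwa [e] at h

end bounds

end Pool.Agent.Q322.SN
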