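import Pool.Agent.Q322.SN.Basic

/-! # Kernels on the sign cube -/

namespace Pool.Agent.Q322.SN

open Finset

/-- the sign of a bit -/
def sg (b : Bool) : ℤ := if b then -1 else 1

/-- The inner product of two sign vectors. -/
def ip {n : ℕ} (u v : Fin n → Bool) : ℤ := ∑ i, sg (u i) * sg (v i)

/-- The graph on sign vectors of length `n` in which distinct vectors are adjacent when their
inner product is positive. -/
def signGraph (n : ℕ) : SimpleGraph (Fin n → Bool) where
  Adj u v := u ≠ v ∧ 0 < ip u v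
  symm := ⟨fun u v h => ⟨h.1.symm, by
    have : ip v u = ip u v := by simp only [ip, mul_comm]
    rw [this]; exact h.2⟩⟩
  loopless := ⟨fun _ h => h.1 rfl⟩

theorem sg_sq (b : Bool) : sg b * sg b = 1 := by cases b <;> rfl

theorem sg_mul (a b : Bool) : sg a * sg b = if a = b then 1 else -1 := by
  cases a <;> cases b <;> rfl

theorem ip_self {n : ℕ} (u : Fin n → Bool) : ip u u = n := by
  simp [ip, sg_sq]

theorem ip_comm {n : ℕ} (u v : Fin n → Bool) : ip u v = ip v u := by
  simp only [ip, mul_comm]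

/-- the product kernel -/
noncomputable def A {n : ℕ} (x : ℝ) (u v : Fin n → Bool) : ℝ :=
  ∏ i, (1 + x * ((sg (u i) * sg (v i) : ℤ) : ℝ))

/-- the character -/
noncomputable def chi {n : ℕ} (S : Finset (Fin n)) (u : Fin n → Bool) : ℝ :=
  ∏ i ∈ S, ((sg (u i) : ℤ) : ℝ)

theorem A_eq {n : ℕ} (x : ℝ) (u v : Fin n → Bool) :
    A x u v = ∑ S : Finset (Fin n), x ^ S.card * chi S u * chi S v := by
  unfold A
  rw [Finset.prod_one_add]
  rw [Finset.powerset_univ]
  refine Finset.sum_congr rfl fun S _ => ?_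
  rw [Finset.prod_mul_distrib, Finset.prod_const, mul_assoc]
  congr 1
  simp only [chi, Int.cast_mul]
  rw [Finset.prod_mul_distrib]

theorem A_comm {n : ℕ} (x : ℝ) (u v : Fin n → Bool) : A x u v = A x v u := by
  simp only [A, mul_comm]

theorem A_nonneg {n : ℕ} {x : ℝ} (hx : |x| ≤ 1) (u v : Fin n → Bool) : 0 ≤ A x u v := by
  refine Finset.prod_nonneg fun i _ => ?_
  have := abs_le.1 hx
  rw [sg_mul]
  split_ifs <;> push_cast <;> linarith

theorem A_sum {n : ℕ} (x : ℝ) (u : Fin n → Bool) : ∑ v, A x u v = 2 ^ n := by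
  have h := Finset.prod_univ_sum (fun _ : Fin n => (Finset.univ : Finset Bool))
    (fun i b => 1 + x * ((sg (u i) * sg b : ℤ) : ℝ))
  rw [Fintype.piFinset_univ] at h
  unfold A
  rw [← h]
  have : ∀ i, ∑ b : Bool, (1 + x * ((sg (u i) * sg b : ℤ) : ℝ)) = 2 := by
    intro i
    rw [Fintype.sum_bool]
    cases u i <;> simp [sg] <;> ring
  rw [Finset.prod_congr rfl fun i _ => this i]
  simp

theorem A_one {n : ℕ} (u v : Fin n → Bool) : A 1 u v = if u = v then 2 ^ n else 0 := by
  split_ifs with h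
  · subst h
    simp only [A, sg_sq]
    norm_num
  · have : ∃ i, u i ≠ v i := by
      by_contra hc
      push Not at hc
      exact h (funext hc)
    obtain ⟨i, hi⟩ := this
    refine Finset.prod_eq_zero (Finset.mem_univ i) ?_
    rw [sg_mul, if_neg hi]
    norm_num

theorem A_card {n : ℕ} (x : ℝ) (u v : Fin n → Bool) :
    A x u v = (1 + x) ^ (univ.filter fun i => u i = v i).card *
      (1 - x) ^ (univ.filter fun i => ¬ u i = v i).card := by
  unfold A
  rw [← Finset.prod_filter_mul_prod_filter_not univ (fun i => u i = v i)]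
  congr 1
  · rw [Finset.prod_congr rfl (g := fun _ => 1 + x), Finset.prod_const]
    intro i hi
    rw [sg_mul, if_pos (Finset.mem_filter.1 hi).2]
    norm_num
  · rw [Finset.prod_congr rfl (g := fun _ => 1 - x), Finset.prod_const]
    intro i hi
    rw [sg_mul, if_neg (Finset.mem_filter.1 hi).2]
    push_cast; ring

theorem ip_card {n : ℕ} (u v : Fin n → Bool) :
    ip u v = ((univ.filter fun i => u i = v i).card : ℤ) -
      ((univ.filter fun i => ¬ u i = v i).card : ℤ) := by
  unfold ip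
  rw [← Finset.sum_filter_add_sum_filter_not univ (fun i => u i = v i)]
  rw [Finset.sum_congr rfl (g := fun _ => (1:ℤ)) (s₁ := univ.filter fun i => u i = v i),
    Finset.sum_congr rfl (g := fun _ => (-1:ℤ)) (s₁ := univ.filter fun i => ¬ u i = v i)]
  · simp [sub_eq_add_neg]
  · intro i hi
    rw [sg_mul, if_neg (Finset.mem_filter.1 hi).2]
  · intro i hi
    rw [sg_mul, if_pos (Finset.mem_filter.1 hi).2]

theorem card_add {n : ℕ} (u v : Fin n → Bool) :
    (univ.filter fun i => u i = v i).card + (univ.filter fun i => ¬ u i = v i).card = n := by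
  rw [Finset.card_filter_add_card_filter_not]
  simp

/-- for a negative parameter the kernel is small at pairs with positive inner product -/
theorem A_small {n : ℕ} {d : ℝ} (hd0 : 0 ≤ d) (hd1 : d ≤ 1) (u v : Fin n → Bool)
    (h : 0 < ip u v) : A (-d) u v ≤ Real.exp (-(n * d ^ 2 / 2)) := by
  have h0 : 0 ≤ A (-d) u v := A_nonneg (by rw [abs_neg, abs_of_nonneg hd0]; exact hd1) u v
  have hsq : A (-d) u v ^ 2 ≤ Real.exp (-(n * d ^ 2 / 2)) ^ 2 := by
    rw [A_card, ← Real.exp_nat_mul]
    rw [ip_card] at h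
    have hn := card_add u v
    set p := (univ.filter fun i => u i = v i).card
    set q := (univ.filter fun i => ¬ u i = v i).card
    obtain ⟨e, he⟩ : ∃ e, p = q + e := ⟨p - q, by omega⟩
    have hA : ((1 + -d) ^ p * (1 - -d) ^ q) ^ 2 = (1 - d ^ 2) ^ (2 * q) * ((1 - d) ^ 2) ^ e := by
      rw [he]
      have e1 : (1 - d ^ 2) = (1 - d) * (1 + d) := by ring
      have e2 : 1 + -d = 1 - d := by ring
      have e3 : 1 - -d = 1 + d := by ring
      rw [e1, e2, e3]
      generalize 1 - d = X
      generalize 1 + d = Y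
      ring
    rw [hA]
    have h1 : (1 - d) ^ 2 ≤ 1 - d ^ 2 := by nlinarith
    have h2 : 0 ≤ 1 - d ^ 2 := by nlinarith
    calc (1 - d ^ 2) ^ (2 * q) * ((1 - d) ^ 2) ^ e
        ≤ (1 - d ^ 2) ^ (2 * q) * (1 - d ^ 2) ^ e := by
          refine mul_le_mul_of_nonneg_left ?_ (pow_nonneg h2 _)
          exact pow_le_pow_left₀ (by positivity) h1 _
      _ = (1 - d ^ 2) ^ n := by
          rw [← pow_add]
          congr 1
          omega
      _ ≤ Real.exp (-(d ^ 2)) ^ n := by
          refine pow_le_pow_left₀ h2 ?_ _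
          have := Real.add_one_le_exp (-(d ^ 2))
          linarith
      _ = Real.exp (((2:ℕ):ℝ) * -(n * d ^ 2 / 2)) := by
          rw [← Real.exp_nat_mul]
          congr 1
          push_cast; ring
  exact (pow_le_pow_iff_left₀ h0 (Real.exp_nonneg _) two_ne_zero).1 hsq

/-- the upper bound `2n` for the Schrijver number of the sign graph -/
theorem signGraph_le {n : ℕ} (hn : 0 < n) : schrijver (signGraph n) ≤ 2 * n := by
  have hn' : (0:ℝ) < n := by exact_mod_cast hn
  -- P = ip^2/n + ip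
  let a : (Fin n × Fin n) ⊕ Fin n → (Fin n → Bool) → ℝ := fun i u =>
    match i with
    | Sum.inl (i, j) => if i = j then 0 else ((sg (u i) * sg (u j) : ℤ) : ℝ) / Real.sqrt n
    | Sum.inr i => ((sg (u i) : ℤ) : ℝ)
  refine schrijver_le (fun u v => (ip u v : ℝ) ^ 2 / n + ip u v) _ a ?_ ?_ ?_
  · intro u v
    rw [Fintype.sum_sum_type, Fintype.sum_prod_type]
    simp only [a]
    have e2 : ∑ i, ((sg (u i) : ℤ) : ℝ) * ((sg (v i) : ℤ) : ℝ) = (ip u v : ℝ) := by
      simp [ip]
    have e1 : ∑ i : Fin n, ∑ j : Fin n,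
        ((if i = j then 0 else ((sg (u i) * sg (u j) : ℤ) : ℝ) / Real.sqrt n) *
        (if i = j then 0 else ((sg (v i) * sg (v j) : ℤ) : ℝ) / Real.sqrt n)) =
        (ip u v : ℝ) ^ 2 / n - 1 := by
      have e3 : ∀ i j : Fin n,
        ((if i = j then 0 else ((sg (u i) * sg (u j) : ℤ) : ℝ) / Real.sqrt n) *
        (if i = j then 0 else ((sg (v i) * sg (v j) : ℤ) : ℝ) / Real.sqrt n)) =
        (((sg (u i) : ℤ) : ℝ) * ((sg (v i) : ℤ) : ℝ)) * (((sg (u j) : ℤ) : ℝ) * ((sg (v j) : ℤ) : ℝ)) / n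
          - if i = j then 1 / (n:ℝ) else 0 := by
        intro i j
        have hs : Real.sqrt n * Real.sqrt n = n := Real.mul_self_sqrt hn'.le
        have hs0 : Real.sqrt n ≠ 0 := (Real.sqrt_pos.2 hn').ne'
        split_ifs with hij
        · subst hij
          have h1 : ((sg (u i) : ℤ) : ℝ) * ((sg (u i) : ℤ) : ℝ) = 1 := by
            exact_mod_cast sg_sq (u i)
          have h2 : ((sg (v i) : ℤ) : ℝ) * ((sg (v i) : ℤ) : ℝ) = 1 := by
            exact_mod_cast sg_sq (v i)
          have : (((sg (u i) : ℤ) : ℝ) * ((sg (v i) : ℤ) : ℝ)) *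
            (((sg (u i) : ℤ) : ℝ) * ((sg (v i) : ℤ) : ℝ)) = 1 := by
            calc _ = (((sg (u i) : ℤ) : ℝ) * ((sg (u i) : ℤ) : ℝ)) *
              (((sg (v i) : ℤ) : ℝ) * ((sg (v i) : ℤ) : ℝ)) := by ring
              _ = 1 := by rw [h1, h2]; norm_num
          rw [this]; ring
        · rw [div_mul_div_comm, hs]
          push_cast; ring
      simp only [e3, Finset.sum_sub_distrib, ← Finset.sum_div]
      have e4 : ∑ i : Fin n, ∑ j : Fin n, (((sg (u i) : ℤ) : ℝ) * ((sg (v i) : ℤ) : ℝ)) *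
          (((sg (u j) : ℤ) : ℝ) * ((sg (v j) : ℤ) : ℝ)) = (ip u v : ℝ) ^ 2 := by
        rw [← e2, pow_two, Finset.sum_mul_sum]
      rw [e4]
      simp [hn'.ne']
    rw [e1, e2]; ring
  · intro u
    simp only [ip_self]
    push_cast
    rw [pow_two, mul_div_assoc, div_self hn'.ne']
    linarith
  · intro u v huv hadj
    have hle : ip u v ≤ 0 := by
      by_contra hc
      exact hadj ⟨huv, by omega⟩
    have hge : -(n:ℤ) ≤ ip u v := by
      rw [ip_card]
      have := card_add u v
      omega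
    have h1 : (ip u v : ℝ) ≤ 0 := by exact_mod_cast hle
    have h2 : -(n:ℝ) ≤ (ip u v : ℝ) := by exact_mod_cast hge
    have : (ip u v : ℝ) ^ 2 / n + ip u v = (ip u v : ℝ) * (ip u v + n) / n := by
      field_simp
    simp only [this]
    exact div_nonpos_of_nonpos_of_nonneg
      (mul_nonpos_of_nonpos_of_nonneg h1 (by linarith)) hn'.le

theorem two_le_signGraph {n : ℕ} (hn : 0 < n) : 2 ≤ schrijver (signGraph n) := by
  refine two_le (a := fun _ => true) (b := fun _ => false) ?_ ?_
  · intro h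
    have := congrFun h ⟨0, hn⟩
    simp at this
  · rintro ⟨_, h⟩
    rw [ip_card] at h
    simp at h
    omega

end Pool.Agent.Q322.SN
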