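import Pool.Agent.Q322.SN.Cube

/-! # A large feasible matrix for the strong square of the sign graph -/

namespace Pool.Agent.Q322.SN

open Finset

abbrev Cube (n : ℕ) := Fin n → Bool

/-- the product kernel on pairs -/
noncomputable def T {n : ℕ} (x y : ℝ) (p q : Cube n × Cube n) : ℝ := A x p.1 q.1 * A y p.2 q.2

/-- the support condition -/
noncomputable def gd {n : ℕ} (x : ℝ) (p q : Cube n × Cube n) : ℝ :=
  if x < 0 then (if ip p.1 q.1 ≤ 0 then 1 else 0) else (if ip p.2 q.2 ≤ 0 then 1 else 0)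

theorem gd_comm {n : ℕ} (x : ℝ) (p q : Cube n × Cube n) : gd x p q = gd x q p := by
  simp only [gd, ip_comm q.1 p.1, ip_comm q.2 p.2]

theorem gd_01 {n : ℕ} (x : ℝ) (p q : Cube n × Cube n) : gd x p q = 0 ∨ gd x p q = 1 := by
  unfold gd
  split_ifs <;> simp

theorem T_comm {n : ℕ} (x y : ℝ) (p q : Cube n × Cube n) : T x y p q = T x y q p := by
  simp only [T, A_comm x q.1 p.1, A_comm y q.2 p.2]

theorem T_nonneg {n : ℕ} {x y : ℝ} (hx : |x| ≤ 1) (hy : |y| ≤ 1) (p q : Cube n × Cube n) :
    0 ≤ T x y p q := mul_nonneg (A_nonneg hx _ _) (A_nonneg hy _ _)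

theorem T_sum {n : ℕ} (x y : ℝ) (p : Cube n × Cube n) : ∑ q, T x y p q = 4 ^ n := by
  rw [Fintype.sum_prod_type]
  simp only [T]
  simp only [← Finset.mul_sum, A_sum, ← Finset.sum_mul]
  rw [← mul_pow]; norm_num

theorem T_one {n : ℕ} (p q : Cube n × Cube n) : T 1 1 p q = if p = q then 4 ^ n else 0 := by
  simp only [T, A_one]
  by_cases h : p = q
  · subst h
    simp only [if_true]
    rw [← mul_pow]; norm_num
  · rw [if_neg h]
    by_cases h1 : p.1 = q.1
    · have h2 : p.2 ≠ q.2 := fun e => h (Prod.ext h1 e)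
      rw [if_neg h2, mul_zero]
    · rw [if_neg h1, zero_mul]

theorem T_quad {n : ℕ} (x y : ℝ) (f : Cube n × Cube n → ℝ) :
    ∑ p, ∑ q, f p * T x y p q * f q =
      ∑ s : Finset (Fin n) × Finset (Fin n), (x ^ s.1.card * y ^ s.2.card) *
        (∑ p, f p * (chi s.1 p.1 * chi s.2 p.2)) ^ 2 := by
  have hT : ∀ p q : Cube n × Cube n, T x y p q =
      ∑ s : Finset (Fin n) × Finset (Fin n), (x ^ s.1.card * y ^ s.2.card) *
        ((chi s.1 p.1 * chi s.2 p.2) * (chi s.1 q.1 * chi s.2 q.2)) := by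
    intro p q
    simp only [T]
    rw [A_eq, A_eq, Finset.sum_mul_sum, Fintype.sum_prod_type]
    refine Finset.sum_congr rfl fun S _ => Finset.sum_congr rfl fun S' _ => ?_
    ring
  have h1 : ∀ p q : Cube n × Cube n, f p * T x y p q * f q =
      ∑ s : Finset (Fin n) × Finset (Fin n), (x ^ s.1.card * y ^ s.2.card) *
        ((f p * (chi s.1 p.1 * chi s.2 p.2)) * (f q * (chi s.1 q.1 * chi s.2 q.2))) := by
    intro p q
    rw [hT, Finset.mul_sum, Finset.sum_mul]
    refine Finset.sum_congr rfl fun s _ => ?_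
    ring
  simp only [h1]
  have h2 : ∀ p : Cube n × Cube n, (∑ q, ∑ s : Finset (Fin n) × Finset (Fin n),
      (x ^ s.1.card * y ^ s.2.card) *
        ((f p * (chi s.1 p.1 * chi s.2 p.2)) * (f q * (chi s.1 q.1 * chi s.2 q.2)))) =
      ∑ s : Finset (Fin n) × Finset (Fin n), ∑ q, (x ^ s.1.card * y ^ s.2.card) *
        ((f p * (chi s.1 p.1 * chi s.2 p.2)) * (f q * (chi s.1 q.1 * chi s.2 q.2))) :=
    fun p => Finset.sum_comm
  simp only [h2]
  rw [Finset.sum_comm]
  refine Finset.sum_congr rfl fun s _ => ?_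
  rw [pow_two, Finset.sum_mul_sum, Finset.mul_sum]
  refine Finset.sum_congr rfl fun p _ => ?_
  rw [Finset.mul_sum]

/-- a symmetric nonnegative kernel with small row sums has a small quadratic form -/
theorem quad_le {I : Type*} [Fintype I] (B : I → I → ℝ) (R : ℝ) (h0 : ∀ p q, 0 ≤ B p q)
    (hs : ∀ p q, B p q = B q p) (hR : ∀ p, ∑ q, B p q ≤ R) (f : I → ℝ) :
    ∑ p, ∑ q, f p * B p q * f q ≤ R * ∑ p, f p ^ 2 := by
  have h1 : ∀ p q, f p * B p q * f q ≤ B p q * f p ^ 2 / 2 + B q p * f q ^ 2 / 2 := by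
    intro p q
    rw [hs q p]
    nlinarith [mul_nonneg (h0 p q) (sq_nonneg (f p - f q))]
  have h2 : ∑ p, ∑ q, (B p q * f p ^ 2 / 2 + B q p * f q ^ 2 / 2) =
      ∑ p, (∑ q, B p q) * f p ^ 2 := by
    simp only [Finset.sum_add_distrib]
    rw [Finset.sum_comm (f := fun p q => B q p * f q ^ 2 / 2), ← Finset.sum_add_distrib]
    refine Finset.sum_congr rfl fun p _ => ?_
    rw [← Finset.sum_add_distrib, Finset.sum_mul]
    refine Finset.sum_congr rfl fun q _ => ?_
    ring
  calc ∑ p, ∑ q, f p * B p q * f q ≤ ∑ p, ∑ q, (B p q * f p ^ 2 / 2 + B q p * f q ^ 2 / 2) :=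
        Finset.sum_le_sum fun p _ => Finset.sum_le_sum fun q _ => h1 p q
    _ = ∑ p, (∑ q, B p q) * f p ^ 2 := h2
    _ ≤ ∑ p, R * f p ^ 2 := Finset.sum_le_sum fun p _ =>
        mul_le_mul_of_nonneg_right (hR p) (sq_nonneg _)
    _ = R * ∑ p, f p ^ 2 := by rw [Finset.mul_sum]

section main

variable {n : ℕ} {ι : Type} (t : Finset ι) (w x y : ι → ℝ) (W l : ℝ)

/-- the matrix -/
noncomputable def Mx (p q : Cube n × Cube n) : ℝ :=
  T 1 1 p q + W * ∑ i ∈ t, w i * (T (l * x i) (l * y i) p q * gd (x i) p q)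

/-- strong square, on pairs -/
def sq (G : SimpleGraph (Cube n)) : SimpleGraph (Cube n × Cube n) where
  Adj p q := p ≠ q ∧ (p.1 = q.1 ∨ G.Adj p.1 q.1) ∧ (p.2 = q.2 ∨ G.Adj p.2 q.2)
  symm := ⟨fun _ _ h => ⟨h.1.symm, h.2.1.elim (fun e => Or.inl e.symm) (fun a => Or.inr a.symm),
    h.2.2.elim (fun e => Or.inl e.symm) (fun a => Or.inr a.symm)⟩⟩
  loopless := ⟨fun _ h => h.1 rfl⟩

variable {t w x y W l}

theorem gd_adj (hn : 0 < n) {p q : Cube n × Cube n}
    (h : (p.1 = q.1 ∨ (signGraph n).Adj p.1 q.1) ∧ (p.2 = q.2 ∨ (signGraph n).Adj p.2 q.2))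
    (a : ℝ) : gd a p q = 0 := by
  have h1 : 0 < ip p.1 q.1 := by
    rcases h.1 with e | e
    · rw [e, ip_self]; exact_mod_cast hn
    · exact e.2
  have h2 : 0 < ip p.2 q.2 := by
    rcases h.2 with e | e
    · rw [e, ip_self]; exact_mod_cast hn
    · exact e.2
  unfold gd
  rw [if_neg (not_le.2 h1), if_neg (not_le.2 h2)]
  split_ifs <;> rfl

/-- Main estimate: the strong square of the sign graph has Schrijver number at least
`1 + W / 2`, under explicit conditions. -/
theorem feasible (hn : 0 < n) (hw : ∀ i ∈ t, 0 ≤ w i) (hw1 : ∑ i ∈ t, w i = 1)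
    (hl0 : 0 ≤ l) (hl1 : l ≤ 1)
    (hxy : ∀ i ∈ t, |x i| ≤ 1 ∧ |y i| ≤ 1 ∧ (x i < 0 ∨ y i < 0)) (hW : 0 ≤ W)
    {ε : ℝ} (hε : ε ≤ 1 / 2) (hWε : W * ε ≤ 1 / 2)
    (hbx : ∀ i ∈ t, x i < 0 → ∀ u v : Cube n, 0 < ip u v → A (l * x i) u v ≤ ε)
    (hby : ∀ i ∈ t, y i < 0 → ∀ u v : Cube n, 0 < ip u v → A (l * y i) u v ≤ ε)
    (hco : ∀ a b : ℕ, 0 ≤ 1 / 2 + W * ∑ i ∈ t, w i * ((l * x i) ^ a * (l * y i) ^ b)) :
    ∃ X : Matrix (Cube n × Cube n) (Cube n × Cube n) ℝ, Feasible (sq (signGraph n)) X ∧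
      1 + W / 2 ≤ ∑ p, ∑ q, X p q := by
  have hlx : ∀ i ∈ t, |l * x i| ≤ 1 := fun i hi => by
    rw [abs_mul, abs_of_nonneg hl0]
    exact mul_le_one₀ hl1 (abs_nonneg _) (hxy i hi).1
  have hly : ∀ i ∈ t, |l * y i| ≤ 1 := fun i hi => by
    rw [abs_mul, abs_of_nonneg hl0]
    exact mul_le_one₀ hl1 (abs_nonneg _) (hxy i hi).2.1
  have hT0 : ∀ i ∈ t, ∀ p q : Cube n × Cube n, 0 ≤ T (l * x i) (l * y i) p q :=
    fun i hi p q => T_nonneg (hlx i hi) (hly i hi) p q
  -- the row sums of the bad part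
  have hbad : ∀ i ∈ t, ∀ p : Cube n × Cube n,
      ∑ q, T (l * x i) (l * y i) p q * (1 - gd (x i) p q) ≤ 4 ^ n * ε := by
    intro i hi p
    have h4 : (4:ℝ) ^ n = 2 ^ n * 2 ^ n := by rw [← mul_pow]; norm_num
    by_cases hx : x i < 0
    · have : ∀ q : Cube n × Cube n, T (l * x i) (l * y i) p q * (1 - gd (x i) p q) ≤
          ε * A (l * y i) p.2 q.2 := by
        intro q
        have hy0 : 0 ≤ A (l * y i) p.2 q.2 := A_nonneg (hly i hi) _ _
        have hx0 : 0 ≤ A (l * x i) p.1 q.1 := A_nonneg (hlx i hi) _ _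
        simp only [gd, if_pos hx, T]
        by_cases hip : ip p.1 q.1 ≤ 0
        · rw [if_pos hip]
          have hε0 : 0 ≤ ε := by
            have := hbx i hi hx p.1 p.1 (by rw [ip_self]; exact_mod_cast hn)
            exact (A_nonneg (hlx i hi) _ _).trans this
          simp only [sub_self, mul_zero]
          positivity
        · rw [if_neg hip]
          simp only [sub_zero, mul_one]
          exact mul_le_mul_of_nonneg_right (hbx i hi hx _ _ (not_le.1 hip)) hy0
      refine (Finset.sum_le_sum fun q _ => this q).trans ?_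
      rw [Fintype.sum_prod_type]
      simp only [← Finset.mul_sum, A_sum]
      rw [Finset.sum_const, Finset.card_univ, Fintype.card_fun, Fintype.card_bool, Fintype.card_fin,
        nsmul_eq_mul, h4]
      push_cast
      linarith
    · have hy : y i < 0 := (hxy i hi).2.2.resolve_left hx
      have : ∀ q : Cube n × Cube n, T (l * x i) (l * y i) p q * (1 - gd (x i) p q) ≤
          ε * A (l * x i) p.1 q.1 := by
        intro q
        have hy0 : 0 ≤ A (l * y i) p.2 q.2 := A_nonneg (hly i hi) _ _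
        have hx0 : 0 ≤ A (l * x i) p.1 q.1 := A_nonneg (hlx i hi) _ _
        simp only [gd, if_neg hx, T]
        by_cases hip : ip p.2 q.2 ≤ 0
        · rw [if_pos hip]
          have hε0 : 0 ≤ ε := by
            have := hby i hi hy p.1 p.1 (by rw [ip_self]; exact_mod_cast hn)
            exact (A_nonneg (hly i hi) _ _).trans this
          simp only [sub_self, mul_zero]
          positivity
        · rw [if_neg hip]
          simp only [sub_zero, mul_one]
          rw [mul_comm]
          exact mul_le_mul_of_nonneg_right (hby i hi hy _ _ (not_le.1 hip)) hx0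
      refine (Finset.sum_le_sum fun q _ => this q).trans ?_
      rw [Fintype.sum_prod_type]
      simp only [← Finset.mul_sum, A_sum, Finset.sum_const, Finset.card_univ, Fintype.card_fun,
        Fintype.card_bool, Fintype.card_fin, nsmul_eq_mul, h4]
      push_cast
      linarith
  have h4 : (0:ℝ) < 4 ^ n := by positivity
  have h16 : (0:ℝ) < 4 ^ n * 4 ^ n := by positivity
  let X : Matrix (Cube n × Cube n) (Cube n × Cube n) ℝ := fun p q =>
    Mx t w x y W l p q / (4 ^ n * 4 ^ n)
  have hM0 : ∀ p q : Cube n × Cube n, 0 ≤ Mx t w x y W l p q := by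
    intro p q
    unfold Mx
    refine add_nonneg ?_ (mul_nonneg hW (Finset.sum_nonneg fun i hi => mul_nonneg (hw i hi)
      (mul_nonneg (hT0 i hi p q) ?_)))
    · rw [T_one]; split_ifs <;> positivity
    · rcases gd_01 (x i) p q with h | h <;> rw [h] <;> norm_num
  refine ⟨X, ⟨?_, ?_, ?_, ?_⟩, ?_⟩
  · -- positive semidefinite
    rw [psd_iff]
    refine ⟨fun p q => ?_, fun f => ?_⟩
    · simp only [X, Mx, T_comm 1 1 p q, fun i => T_comm (l * x i) (l * y i) p q,
        fun a => gd_comm a p q]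
    · have hquad : ∑ p, ∑ q, f p * Mx t w x y W l p q * f q =
          (∑ s : Finset (Fin n) × Finset (Fin n),
            (1 / 2 + W * ∑ i ∈ t, w i * ((l * x i) ^ s.1.card * (l * y i) ^ s.2.card)) *
            (∑ p, f p * (chi s.1 p.1 * chi s.2 p.2)) ^ 2) +
          (1 / 2 * (4 ^ n * ∑ p, f p ^ 2) - W * ∑ i ∈ t, w i *
            ∑ p, ∑ q, f p * (T (l * x i) (l * y i) p q * (1 - gd (x i) p q)) * f q) := by
        have e1 : ∀ p q : Cube n × Cube n, f p * Mx t w x y W l p q * f q =
            f p * T 1 1 p q * f q +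
            W * ∑ i ∈ t, w i * (f p * T (l * x i) (l * y i) p q * f q) -
            W * ∑ i ∈ t, w i * (f p * (T (l * x i) (l * y i) p q * (1 - gd (x i) p q)) * f q) := by
          intro p q
          rw [add_sub_assoc, ← mul_sub, ← Finset.sum_sub_distrib]
          unfold Mx
          rw [mul_add, add_mul]
          congr 1
          rw [Finset.mul_sum, Finset.mul_sum, Finset.mul_sum, Finset.sum_mul]
          refine Finset.sum_congr rfl fun i _ => ?_
          ring
        have e2 : ∑ p, ∑ q, f p * T 1 1 p q * f q = 4 ^ n * ∑ p : Cube n × Cube n, f p ^ 2 := by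
          rw [Finset.mul_sum]
          refine Finset.sum_congr rfl fun p _ => ?_
          simp only [T_one]
          have : ∀ q, f p * (if p = q then (4:ℝ) ^ n else 0) * f q =
              if p = q then f p * 4 ^ n * f q else 0 := by
            intro q; split_ifs <;> ring
          simp only [this, Finset.sum_ite_eq, Finset.mem_univ, if_true]
          ring
        have e3 : ∀ g : ι → Cube n × Cube n → Cube n × Cube n → ℝ,
            ∑ p, ∑ q, W * ∑ i ∈ t, w i * g i p q = W * ∑ i ∈ t, w i * ∑ p, ∑ q, g i p q := by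
          intro g
          simp only [← Finset.mul_sum]
          congr 1
          have : ∀ p, ∑ q, ∑ i ∈ t, w i * g i p q = ∑ i ∈ t, ∑ q, w i * g i p q :=
            fun p => Finset.sum_comm
          simp only [this]
          rw [Finset.sum_comm]
          simp only [Finset.mul_sum]
        simp only [e1, Finset.sum_sub_distrib, Finset.sum_add_distrib]
        rw [e3 (fun i p q => f p * T (l * x i) (l * y i) p q * f q),
          e3 (fun i p q => f p * (T (l * x i) (l * y i) p q * (1 - gd (x i) p q)) * f q)]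
        have e4 : ∑ p, ∑ q, f p * T 1 1 p q * f q =
            (∑ s : Finset (Fin n) × Finset (Fin n), 1 / 2 *
            (∑ p, f p * (chi s.1 p.1 * chi s.2 p.2)) ^ 2) + 1 / 2 * (4 ^ n * ∑ p, f p ^ 2) := by
          have e5 := T_quad 1 1 f
          simp only [one_pow, one_mul] at e5
          rw [← Finset.mul_sum, ← e5, ← e2]
          ring
        rw [e4]
        have e6 : W * ∑ i ∈ t, w i * ∑ p, ∑ q, f p * T (l * x i) (l * y i) p q * f q =
            ∑ s : Finset (Fin n) × Finset (Fin n),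
            (W * ∑ i ∈ t, w i * ((l * x i) ^ s.1.card * (l * y i) ^ s.2.card)) *
            (∑ p, f p * (chi s.1 p.1 * chi s.2 p.2)) ^ 2 := by
          simp only [T_quad]
          simp only [mul_assoc W]
          rw [← Finset.mul_sum]
          congr 1
          simp only [Finset.mul_sum, Finset.sum_mul]
          rw [Finset.sum_comm]
          refine Finset.sum_congr rfl fun s _ => Finset.sum_congr rfl fun i _ => ?_
          ring
        rw [e6]
        have e7 : ∀ s : Finset (Fin n) × Finset (Fin n),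
            (1 / 2 + W * ∑ i ∈ t, w i * ((l * x i) ^ s.1.card * (l * y i) ^ s.2.card)) *
            (∑ p, f p * (chi s.1 p.1 * chi s.2 p.2)) ^ 2 =
            1 / 2 * (∑ p, f p * (chi s.1 p.1 * chi s.2 p.2)) ^ 2 +
            (W * ∑ i ∈ t, w i * ((l * x i) ^ s.1.card * (l * y i) ^ s.2.card)) *
            (∑ p, f p * (chi s.1 p.1 * chi s.2 p.2)) ^ 2 := fun s => by rw [add_mul]
        simp only [e7, Finset.sum_add_distrib]
        ring
      have hnn : 0 ≤ ∑ p, ∑ q, f p * Mx t w x y W l p q * f q := by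
        rw [hquad]
        refine add_nonneg (Finset.sum_nonneg fun s _ => mul_nonneg (hco _ _) (sq_nonneg _)) ?_
        have h5 : ∑ i ∈ t, w i *
            ∑ p, ∑ q, f p * (T (l * x i) (l * y i) p q * (1 - gd (x i) p q)) * f q ≤
            ∑ i ∈ t, w i * (4 ^ n * ε * ∑ p, f p ^ 2) := by
          refine Finset.sum_le_sum fun i hi => mul_le_mul_of_nonneg_left ?_ (hw i hi)
          refine quad_le _ _ (fun p q => mul_nonneg (hT0 i hi p q) ?_) (fun p q => ?_)
            (hbad i hi) f
          · rcases gd_01 (x i) p q with h | h <;> rw [h] <;> norm_num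
          · rw [T_comm, gd_comm]
        rw [← Finset.sum_mul, hw1, one_mul] at h5
        have h6 := mul_le_mul_of_nonneg_left h5 hW
        have h7 : 0 ≤ ∑ p, f p ^ 2 := Finset.sum_nonneg fun p _ => sq_nonneg _
        have h8 : W * (4 ^ n * ε * ∑ p, f p ^ 2) = (W * ε) * (4 ^ n * ∑ p, f p ^ 2) := by ring
        have h9 : (W * ε) * (4 ^ n * ∑ p, f p ^ 2) ≤ 1 / 2 * (4 ^ n * ∑ p, f p ^ 2) :=
          mul_le_mul_of_nonneg_right hWε (by positivity)
        linarith
      have : ∑ p, ∑ q, f p * X p q * f q =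
          (∑ p, ∑ q, f p * Mx t w x y W l p q * f q) / (4 ^ n * 4 ^ n) := by
        rw [Finset.sum_div]
        refine Finset.sum_congr rfl fun p _ => ?_
        rw [Finset.sum_div]
        refine Finset.sum_congr rfl fun q _ => ?_
        simp only [X]; ring
      rw [this]
      positivity
  · intro p q
    exact div_nonneg (hM0 p q) h16.le
  · have : ∀ p : Cube n × Cube n, Mx t w x y W l p p = 4 ^ n := by
      intro p
      unfold Mx
      rw [T_one, if_pos rfl]
      have : ∀ i, gd (x i) p p = 0 := fun i => gd_adj hn ⟨Or.inl rfl, Or.inl rfl⟩ _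
      simp [this]
    simp only [Matrix.trace, Matrix.diag_apply, X, this]
    rw [Finset.sum_const, Finset.card_univ, Fintype.card_prod, Fintype.card_fun,
      Fintype.card_bool, Fintype.card_fin, nsmul_eq_mul]
    have : (((2:ℕ) ^ n * 2 ^ n : ℕ) : ℝ) = 4 ^ n := by
      push_cast
      rw [← mul_pow]; norm_num
    rw [this]
    field_simp
  · intro p q hpq
    have : Mx t w x y W l p q = 0 := by
      unfold Mx
      rw [T_one, if_neg hpq.1]
      have : ∀ i, gd (x i) p q = 0 := fun i => gd_adj hn hpq.2 _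
      simp [this]
    simp only [X, this, zero_div]
  · have hrow : ∀ p : Cube n × Cube n, 4 ^ n * (1 + W / 2) ≤ ∑ q, Mx t w x y W l p q := by
      intro p
      have e1 : ∑ q, Mx t w x y W l p q = 4 ^ n +
          W * ∑ i ∈ t, w i * ∑ q, T (l * x i) (l * y i) p q * gd (x i) p q := by
        unfold Mx
        rw [Finset.sum_add_distrib, T_sum]
        congr 1
        rw [← Finset.mul_sum, Finset.sum_comm]
        simp only [Finset.mul_sum]
      have e2 : ∀ i ∈ t, 4 ^ n * (1 / 2) ≤ ∑ q, T (l * x i) (l * y i) p q * gd (x i) p q := by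
        intro i hi
        have h1 := hbad i hi p
        have h2 := T_sum (l * x i) (l * y i) p
        have h3 : ∑ q, T (l * x i) (l * y i) p q * (1 - gd (x i) p q) =
            4 ^ n - ∑ q, T (l * x i) (l * y i) p q * gd (x i) p q := by
          rw [← h2, ← Finset.sum_sub_distrib]
          refine Finset.sum_congr rfl fun q _ => ?_
          ring
        rw [h3] at h1
        nlinarith
      have e3 : 4 ^ n * (1 / 2) ≤
          ∑ i ∈ t, w i * ∑ q, T (l * x i) (l * y i) p q * gd (x i) p q := by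
        calc 4 ^ n * (1 / 2) = ∑ i ∈ t, w i * (4 ^ n * (1 / 2)) := by
              rw [← Finset.sum_mul, hw1, one_mul]
          _ ≤ _ := Finset.sum_le_sum fun i hi => mul_le_mul_of_nonneg_left (e2 i hi) (hw i hi)
      rw [e1]
      nlinarith [mul_le_mul_of_nonneg_left e3 hW]
    have hsum : ∑ p, ∑ q, X p q =
        (∑ p : Cube n × Cube n, ∑ q : Cube n × Cube n, Mx t w x y W l p q) / (4 ^ n * 4 ^ n) := by
      rw [Finset.sum_div]
      refine Finset.sum_congr rfl fun p _ => ?_
      rw [Finset.sum_div]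
    rw [hsum, le_div_iff₀ h16]
    have : (1 + W / 2) * (4 ^ n * 4 ^ n) = ∑ p : Cube n × Cube n, 4 ^ n * (1 + W / 2) := by
      rw [Finset.sum_const, Finset.card_univ, Fintype.card_prod, Fintype.card_fun,
        Fintype.card_bool, Fintype.card_fin, nsmul_eq_mul]
      have : (((2:ℕ) ^ n * 2 ^ n : ℕ) : ℝ) = 4 ^ n := by
        push_cast
        rw [← mul_pow]; norm_num
      rw [this]
      ring
    rw [this]
    exact Finset.sum_le_sum fun p _ => hrow p

end main

end Pool.Agent.Q322.SN
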