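import Pool.Agent.Q322.SN.Moment
import Pool.Agent.Q322.SN.Two

/-! # Schrijver numbers of strong powers of the sign graph grow superpolynomially -/

namespace Pool.Agent.Q322.SN

open Finset Filter Topology

theorem exp_small (k : ℕ) {c : ℝ} (hc : 0 < c) :
    ∀ᶠ n : ℕ in atTop, ((n:ℝ) ^ k + 2) * Real.exp (-(c * Real.sqrt n)) ≤ 1 := by
  have h1 := (isLittleO_pow_exp_pos_mul_atTop (k := 2 * k) hc).def (show (0:ℝ) < 1 / 2 by norm_num)
  have h2 := (isLittleO_pow_exp_pos_mul_atTop (k := 0) hc).def (show (0:ℝ) < 1 / 4 by norm_num)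
  have hs : Tendsto (fun n : ℕ => Real.sqrt n) atTop atTop :=
    Real.tendsto_sqrt_atTop.comp tendsto_natCast_atTop_atTop
  filter_upwards [hs.eventually h1, hs.eventually h2] with n hn1 hn2
  rw [Real.norm_of_nonneg (by positivity), Real.norm_of_nonneg (Real.exp_nonneg _)] at hn1 hn2
  have e : (Real.sqrt n) ^ (2 * k) = (n:ℝ) ^ k := by
    rw [pow_mul, Real.sq_sqrt (Nat.cast_nonneg n)]
  rw [e] at hn1
  rw [pow_zero] at hn2
  rw [Real.exp_neg]
  have hpos := Real.exp_pos (c * Real.sqrt n)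
  rw [← div_eq_mul_inv, div_le_one hpos]
  linarith

theorem square_large (k : ℕ) : ∀ᶠ n : ℕ in atTop,
    ∃ X : Matrix (Cube n × Cube n) (Cube n × Cube n) ℝ, Feasible (sq (signGraph n)) X ∧
      (n:ℝ) ^ k / 4 ≤ ∑ p, ∑ q, X p q := by
  obtain ⟨ι, t, w, x, y, hw, hw1, hxy, hm⟩ := moments (4 * k)
  have hX : ∀ᶠ n : ℕ in atTop, ∀ i ∈ t, x i < 0 →
      ((n:ℝ) ^ k + 2) * Real.exp (-((x i) ^ 2 / 2 * Real.sqrt n)) ≤ 1 := by
    rw [Filter.eventually_all_finset]
    intro i _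
    by_cases hx : x i < 0
    · filter_upwards [exp_small k (c := (x i) ^ 2 / 2) (by have := hx.ne; positivity)] with n hn _
      exact hn
    · exact Filter.Eventually.of_forall fun n h => absurd h hx
  have hY : ∀ᶠ n : ℕ in atTop, ∀ i ∈ t, y i < 0 →
      ((n:ℝ) ^ k + 2) * Real.exp (-((y i) ^ 2 / 2 * Real.sqrt n)) ≤ 1 := by
    rw [Filter.eventually_all_finset]
    intro i _
    by_cases hx : y i < 0
    · filter_upwards [exp_small k (c := (y i) ^ 2 / 2) (by have := hx.ne; positivity)] with n hn _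
      exact hn
    · exact Filter.Eventually.of_forall fun n h => absurd h hx
  filter_upwards [hX, hY, Filter.eventually_ge_atTop 1] with n hXn hYn hn
  have hn1 : (1:ℝ) ≤ n := by exact_mod_cast hn
  have hn0 : (0:ℝ) < n := by linarith
  set s := Real.sqrt n with hs
  have hs1 : 1 ≤ s := Real.one_le_sqrt.2 hn1
  have hs2 : s ^ 2 = n := Real.sq_sqrt hn0.le
  set l := 1 / Real.sqrt s with hl
  have hss : 1 ≤ Real.sqrt s := Real.one_le_sqrt.2 hs1
  have hl0 : 0 < l := by positivity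
  have hl1 : l ≤ 1 := by
    rw [hl, div_le_one (by positivity)]
    exact hss
  have hl2 : l ^ 2 = 1 / s := by
    rw [hl, div_pow, Real.sq_sqrt (by linarith), one_pow]
  have hl4 : l ^ 4 = 1 / n := by
    have e : l ^ 4 = (l ^ 2) ^ 2 := by ring
    rw [e, hl2, div_pow, hs2, one_pow]
  have hnl : (n:ℝ) * l ^ 2 = s := by
    rw [hl2, ← hs2]
    field_simp
  have hnk : (0:ℝ) < (n:ℝ) ^ k := by positivity
  have small : ∀ z : ℝ, z < 0 → |z| ≤ 1 →
      ((n:ℝ) ^ k + 2) * Real.exp (-(z ^ 2 / 2 * s)) ≤ 1 →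
      ∀ u v : Cube n, 0 < ip u v → A (l * z) u v ≤ 1 / ((n:ℝ) ^ k + 2) := by
    intro z hz hz1 hb u v huv
    have hd0 : 0 ≤ -(l * z) := by
      have := mul_nonneg hl0.le (neg_nonneg.2 hz.le)
      linarith
    have hd1 : -(l * z) ≤ 1 := by
      have h1 : |l * z| ≤ 1 := by
        rw [abs_mul, abs_of_pos hl0]
        exact mul_le_one₀ hl1 (abs_nonneg _) hz1
      have := neg_abs_le (l * z)
      linarith
    have h1 := A_small hd0 hd1 u v huv
    rw [neg_neg] at h1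
    refine h1.trans ?_
    have e : (n:ℝ) * (-(l * z)) ^ 2 / 2 = z ^ 2 / 2 * s := by
      calc (n:ℝ) * (-(l * z)) ^ 2 / 2 = z ^ 2 / 2 * ((n:ℝ) * l ^ 2) := by ring
        _ = _ := by rw [hnl]
    rw [e, le_div_iff₀ (by positivity), mul_comm]
    exact hb
  have habs : ∀ z : ℝ, |z| ≤ 1 → ∀ a : ℕ, |(l * z) ^ a| ≤ l ^ a := by
    intro z hz a
    rw [abs_pow, abs_mul, abs_of_pos hl0]
    refine pow_le_pow_left₀ (by positivity) ?_ _
    calc l * |z| ≤ l * 1 := mul_le_mul_of_nonneg_left hz hl0.le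
      _ = l := mul_one l
  have hl4k : l ^ (4 * k) = 1 / (n:ℝ) ^ k := by
    rw [pow_mul, hl4, div_pow, one_pow]
  have hco : ∀ a b : ℕ, 0 ≤ 1 / 2 + (n:ℝ) ^ k / 2 *
      ∑ i ∈ t, w i * ((l * x i) ^ a * (l * y i) ^ b) := by
    intro a b
    by_cases hab : a < 4 * k ∧ b < 4 * k
    · have h1 := hm a hab.1 b hab.2
      have h2 : ∑ i ∈ t, w i * ((l * x i) ^ a * (l * y i) ^ b) =
          l ^ a * l ^ b * ∑ i ∈ t, w i * (x i ^ a * y i ^ b) := by
        rw [Finset.mul_sum]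
        refine Finset.sum_congr rfl fun i _ => ?_
        rw [mul_pow, mul_pow]; ring
      rw [h2]
      positivity
    · have h1 : ∀ i ∈ t, |(l * x i) ^ a * (l * y i) ^ b| ≤ 1 / (n:ℝ) ^ k := by
        intro i hi
        rw [abs_mul, ← hl4k]
        have ha := habs (x i) (hxy i hi).1 a
        have hb := habs (y i) (hxy i hi).2.1 b
        have ha1 : l ^ a ≤ 1 := pow_le_one₀ hl0.le hl1
        have hb1 : l ^ b ≤ 1 := pow_le_one₀ hl0.le hl1
        rcases not_and_or.1 hab with h | h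
        · have h4 : l ^ a ≤ l ^ (4 * k) := pow_le_pow_of_le_one hl0.le hl1 (not_lt.1 h)
          calc |(l * x i) ^ a| * |(l * y i) ^ b| ≤ l ^ (4 * k) * 1 :=
                mul_le_mul (ha.trans h4) (hb.trans hb1) (abs_nonneg _) (by positivity)
            _ = _ := mul_one _
        · have h4 : l ^ b ≤ l ^ (4 * k) := pow_le_pow_of_le_one hl0.le hl1 (not_lt.1 h)
          calc |(l * x i) ^ a| * |(l * y i) ^ b| ≤ 1 * l ^ (4 * k) :=
                mul_le_mul (ha.trans ha1) (hb.trans h4) (abs_nonneg _) (by norm_num)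
            _ = _ := one_mul _
      have h2 : |∑ i ∈ t, w i * ((l * x i) ^ a * (l * y i) ^ b)| ≤ 1 / (n:ℝ) ^ k := by
        calc |∑ i ∈ t, w i * ((l * x i) ^ a * (l * y i) ^ b)|
            ≤ ∑ i ∈ t, |w i * ((l * x i) ^ a * (l * y i) ^ b)| := Finset.abs_sum_le_sum_abs _ _
          _ ≤ ∑ i ∈ t, w i * (1 / (n:ℝ) ^ k) := by
              refine Finset.sum_le_sum fun i hi => ?_
              rw [abs_mul, abs_of_nonneg (hw i hi)]
              exact mul_le_mul_of_nonneg_left (h1 i hi) (hw i hi)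
          _ = 1 / (n:ℝ) ^ k := by rw [← Finset.sum_mul, hw1, one_mul]
      have h3 := (abs_le.1 h2).1
      have h4 : (n:ℝ) ^ k / 2 * (-(1 / (n:ℝ) ^ k)) ≤
          (n:ℝ) ^ k / 2 * ∑ i ∈ t, w i * ((l * x i) ^ a * (l * y i) ^ b) :=
        mul_le_mul_of_nonneg_left h3 (by positivity)
      have h5 : (n:ℝ) ^ k / 2 * (-(1 / (n:ℝ) ^ k)) = -(1 / 2) := by
        field_simp
      linarith
  have hε2 : 1 / ((n:ℝ) ^ k + 2) ≤ 1 / 2 := by
    refine one_div_le_one_div_of_le (by norm_num) (by linarith)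
  have hWε : (n:ℝ) ^ k / 2 * (1 / ((n:ℝ) ^ k + 2)) ≤ 1 / 2 := by
    rw [div_mul_div_comm, div_le_div_iff₀ (by positivity) (by norm_num)]
    nlinarith
  obtain ⟨X, hX1, hX2⟩ := feasible (n := n) (t := t) (w := w) (x := x) (y := y)
    (W := (n:ℝ) ^ k / 2) (l := l) hn hw hw1 hl0.le hl1 hxy (by positivity)
    (ε := 1 / ((n:ℝ) ^ k + 2)) hε2 hWε
    (fun i hi hx => small (x i) hx (hxy i hi).1 (hXn i hi hx))
    (fun i hi hy => small (y i) hy (hxy i hi).2.1 (hYn i hi hy)) hco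
  exact ⟨X, hX1, by linarith⟩

theorem power_large {r : ℕ} (hr : 2 ≤ r) (k : ℕ) : ∀ᶠ n : ℕ in atTop,
    (n:ℝ) ^ k ≤ schrijver (strongProd fun _ : Fin r => signGraph n) := by
  filter_upwards [square_large (k + 1), Filter.eventually_ge_atTop 4] with n hX hn
  obtain ⟨X, hF, hs⟩ := hX
  let φ : Cube n × Cube n → (Fin r → Cube n) := fun p i =>
    if i.val = 0 then p.1 else if i.val = 1 then p.2 else fun _ => true
  have h0 : ∀ p, φ p ⟨0, by omega⟩ = p.1 := fun p => by simp [φ]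
  have h1 : ∀ p, φ p ⟨1, by omega⟩ = p.2 := fun p => by simp [φ]
  have hinj : Function.Injective φ := by
    intro p q hpq
    refine Prod.ext ?_ ?_
    · rw [← h0 p, ← h0 q, hpq]
    · rw [← h1 p, ← h1 q, hpq]
  have h := schrijver_mono (G := strongProd fun _ : Fin r => signGraph n)
    (H := sq (signGraph n)) φ hinj (by
      intro p q hpq
      refine ⟨fun e => hpq.1 (by rw [e]), ?_, ?_⟩
      · have := hpq.2 ⟨0, by omega⟩
        rwa [h0, h0] at this
      · have := hpq.2 ⟨1, by omega⟩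
        rwa [h1, h1] at this) hF
  have hn4 : (4:ℝ) ≤ n := by exact_mod_cast hn
  have hnk : (0:ℝ) < (n:ℝ) ^ k := by positivity
  have : (n:ℝ) ^ k ≤ (n:ℝ) ^ (k + 1) / 4 := by
    rw [pow_succ]
    nlinarith
  linarith

theorem quasi {r : ℕ} (hr : 2 ≤ r) (C : ℝ) : ∀ᶠ n : ℕ in atTop,
    2 ≤ schrijver (signGraph n) ∧
    ∏ _i : Fin r, schrijver (signGraph n) ^ C <
      schrijver (strongProd fun _ : Fin r => signGraph n) := by
  set K := ⌈C⌉₊ with hK
  filter_upwards [power_large hr (r * K + 1), Filter.eventually_ge_atTop 1,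
    Filter.eventually_gt_atTop (2 ^ (r * K))] with n hp hn1 hn2
  have h2 := two_le_signGraph (n := n) (by omega)
  refine ⟨h2, lt_of_lt_of_le ?_ hp⟩
  have hle := signGraph_le (n := n) (by omega)
  have h0 : 0 ≤ schrijver (signGraph n) := by linarith
  have e1 : ∏ _i : Fin r, schrijver (signGraph n) ^ C = (schrijver (signGraph n) ^ C) ^ r := by
    simp
  have e2 : schrijver (signGraph n) ^ C ≤ schrijver (signGraph n) ^ K := by
    rw [← Real.rpow_natCast]
    exact Real.rpow_le_rpow_of_exponent_le (by linarith) (Nat.le_ceil C)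
  have e3 : (schrijver (signGraph n) ^ C) ^ r ≤ (2 * n : ℝ) ^ (r * K) := by
    calc (schrijver (signGraph n) ^ C) ^ r ≤ (schrijver (signGraph n) ^ K) ^ r :=
          pow_le_pow_left₀ (Real.rpow_nonneg h0 _) e2 _
      _ = schrijver (signGraph n) ^ (r * K) := by rw [← pow_mul, mul_comm]
      _ ≤ (2 * n : ℝ) ^ (r * K) := pow_le_pow_left₀ h0 hle _
  have hn3 : (2:ℝ) ^ (r * K) < n := by exact_mod_cast hn2
  have hn0 : (0:ℝ) < n := by exact_mod_cast hn1
  rw [e1]
  calc (schrijver (signGraph n) ^ C) ^ r ≤ (2 * n : ℝ) ^ (r * K) := e3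
    _ = (2:ℝ) ^ (r * K) * (n:ℝ) ^ (r * K) := mul_pow _ _ _
    _ < n * (n:ℝ) ^ (r * K) := mul_lt_mul_of_pos_right hn3 (by positivity)
    _ = (n:ℝ) ^ (r * K + 1) := by ring

theorem negative {r : ℕ} (hr : 2 ≤ r) : ¬ ∃ C : ℝ, ∀ (V : Fin r → Type) (_ : ∀ i, Fintype (V i))
    (G : ∀ i, SimpleGraph (V i)), (∀ i, 2 ≤ schrijver (G i)) →
      schrijver (strongProd G) ≤ ∏ i, schrijver (G i) ^ C := by
  rintro ⟨C, hC⟩
  obtain ⟨n, h2, hlt⟩ := (quasi hr C).exists
  have := hC (fun _ => Fin n → Bool) (fun _ => inferInstance) (fun _ => signGraph n)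
    (fun _ => h2)
  exact absurd hlt (not_lt.2 this)

end Pool.Agent.Q322.SN
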