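import Mathlib

/-! # A moment lemma: positive mixed moments on three quadrants -/

namespace Pool.Agent.Q322.SN

open Finset Filter Topology

theorem col01 (N : ℕ) (c : ℕ → ℕ → ℝ) (h0 : ∀ a b, 0 ≤ c a b)
    (h : ∀ x y : ℝ, x ≠ 0 → y ≠ 0 → |x| ≤ 1 → |y| ≤ 1 → (x < 0 ∨ y < 0) →
      ∑ a ∈ range (N + 2), ∑ b ∈ range (N + 2), c a b * x ^ a * y ^ b ≤ 0) :
    ∀ a < N + 2, c a 0 = 0 ∧ c a 1 = 0 := by
  -- step A
  have hA : ∀ a < N + 2, c a 0 = 0 := by
    have hcont : Continuous fun y : ℝ => ∑ a ∈ range (N + 2), ∑ b ∈ range (N + 2),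
        c a b * (1:ℝ) ^ a * y ^ b := by fun_prop
    have hlim : Tendsto (fun y : ℝ => ∑ a ∈ range (N + 2), ∑ b ∈ range (N + 2),
        c a b * (1:ℝ) ^ a * y ^ b) (𝓝[<] 0) (𝓝 (∑ a ∈ range (N + 2), ∑ b ∈ range (N + 2),
        c a b * (1:ℝ) ^ a * (0:ℝ) ^ b)) := (hcont.tendsto 0).mono_left nhdsWithin_le_nhds
    have hle : ∑ a ∈ range (N + 2), ∑ b ∈ range (N + 2), c a b * (1:ℝ) ^ a * (0:ℝ) ^ b ≤ 0 := by
      refine le_of_tendsto hlim ?_
      have : ∀ᶠ y : ℝ in 𝓝[<] 0, y ∈ Set.Ioo (-1:ℝ) 0 := Ioo_mem_nhdsLT (by norm_num)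
      filter_upwards [this] with y hy
      exact h 1 y (by norm_num) hy.2.ne (by simp) (abs_le.2 ⟨hy.1.le, by linarith [hy.2]⟩)
        (Or.inr hy.2)
    have e : ∀ a, ∑ b ∈ range (N + 2), c a b * (1:ℝ) ^ a * (0:ℝ) ^ b = c a 0 := by
      intro a
      rw [Finset.sum_range_succ']
      simp
    simp only [e] at hle
    intro a ha
    have := (Finset.sum_eq_zero_iff_of_nonneg (fun a _ => h0 a 0)).1
      (le_antisymm hle (Finset.sum_nonneg fun a _ => h0 a 0)) a (mem_range.2 ha)
    exact this
  -- step B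
  have hB : ∀ x : ℝ, x < 0 → -1 ≤ x → ∑ a ∈ range (N + 2), c a 1 * x ^ a = 0 := by
    intro x hx0 hx1
    let g : ℝ → ℝ := fun y => ∑ a ∈ range (N + 2), ∑ b ∈ range (N + 1), c a (b + 1) * x ^ a * y ^ b
    have hg : Continuous g := by simp only [g]; fun_prop
    have hy : ∀ y : ℝ, ∑ a ∈ range (N + 2), ∑ b ∈ range (N + 2), c a b * x ^ a * y ^ b
        = y * g y := by
      intro y
      simp only [g]
      rw [Finset.mul_sum]
      refine Finset.sum_congr rfl fun a ha => ?_
      rw [Finset.sum_range_succ', hA a (mem_range.1 ha), Finset.mul_sum]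
      simp only [zero_mul, add_zero]
      refine Finset.sum_congr rfl fun b _ => ?_
      ring
    have habs : |x| ≤ 1 := abs_le.2 ⟨hx1, by linarith⟩
    have h1 : g 0 ≤ 0 := by
      refine le_of_tendsto ((hg.tendsto 0).mono_left (nhdsWithin_le_nhds (s := Set.Ioi 0))) ?_
      have : ∀ᶠ y : ℝ in 𝓝[>] 0, y ∈ Set.Ioo (0:ℝ) 1 := Ioo_mem_nhdsGT (by norm_num)
      filter_upwards [this] with y hy'
      have := h x y hx0.ne hy'.1.ne' habs (abs_le.2 ⟨by linarith [hy'.1], hy'.2.le⟩) (Or.inl hx0)
      rw [hy] at this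
      by_contra hc
      push Not at hc
      nlinarith [mul_pos hy'.1 hc]
    have h2 : 0 ≤ g 0 := by
      refine ge_of_tendsto ((hg.tendsto 0).mono_left (nhdsWithin_le_nhds (s := Set.Iio 0))) ?_
      have : ∀ᶠ y : ℝ in 𝓝[<] 0, y ∈ Set.Ioo (-1:ℝ) 0 := Ioo_mem_nhdsLT (by norm_num)
      filter_upwards [this] with y hy'
      have := h x y hx0.ne hy'.2.ne habs (abs_le.2 ⟨hy'.1.le, by linarith [hy'.2]⟩) (Or.inl hx0)
      rw [hy] at this
      by_contra hc
      push Not at hc
      nlinarith [mul_pos_of_neg_of_neg hy'.2 hc]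
    have h3 : g 0 = 0 := le_antisymm h1 h2
    simp only [g] at h3
    rw [← h3]
    refine Finset.sum_congr rfl fun a _ => ?_
    rw [Finset.sum_range_succ']
    simp
  -- polynomial
  let p : Polynomial ℝ := ∑ a ∈ range (N + 2), Polynomial.C (c a 1) * Polynomial.X ^ a
  have hp : p = 0 := by
    refine Polynomial.eq_zero_of_infinite_isRoot p ?_
    refine Set.Infinite.mono ?_ (Set.Ioo_infinite (show (-1:ℝ) < 0 by norm_num))
    intro x hx
    have := hB x hx.2 hx.1.le
    simp only [Set.mem_ofPred_eq, Polynomial.IsRoot, p]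
    rw [Polynomial.eval_finsetSum]
    simpa using this
  intro a ha
  refine ⟨hA a ha, ?_⟩
  have : p.coeff a = c a 1 := by
    simp only [p, Polynomial.finsetSum_coeff, Polynomial.coeff_C_mul, Polynomial.coeff_X_pow]
    rw [Finset.sum_eq_single a]
    · simp
    · intro b _ hb
      rw [if_neg (Ne.symm hb)]; simp
    · intro h'
      exact absurd (mem_range.2 ha) h'
  rw [← this, hp]
  simp

theorem descent (N : ℕ) : ∀ c : ℕ → ℕ → ℝ, (∀ a b, 0 ≤ c a b) →
    (∀ x y : ℝ, x ≠ 0 → y ≠ 0 → |x| ≤ 1 → |y| ≤ 1 → (x < 0 ∨ y < 0) →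
      ∑ a ∈ range N, ∑ b ∈ range N, c a b * x ^ a * y ^ b ≤ 0) →
    ∀ a < N, ∀ b < N, c a b = 0 := by
  induction N using Nat.twoStepInduction with
  | zero => intro c _ _ a ha; exact absurd ha (Nat.not_lt_zero _)
  | one =>
    intro c h0 h a ha b hb
    have ha' : a = 0 := by omega
    have hb' : b = 0 := by omega
    subst ha' hb'
    have := h (-1) (-1) (by norm_num) (by norm_num) (by simp) (by simp) (Or.inl (by norm_num))
    simp at this
    exact le_antisymm this (h0 0 0)
  | more N ih _ =>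
    intro c h0 h
    have hc := col01 N c h0 h
    have hr := col01 N (fun a b => c b a) (fun a b => h0 b a) (by
      intro x y hx hy hx1 hy1 hxy
      have := h y x hy hx hy1 hx1 hxy.symm
      rw [Finset.sum_comm] at this
      refine le_trans (le_of_eq ?_) this
      refine Finset.sum_congr rfl fun a _ => Finset.sum_congr rfl fun b _ => ?_
      ring)
    have key := ih (fun a b => c (a + 2) (b + 2)) (fun a b => h0 _ _) (by
      intro x y hx hy hx1 hy1 hxy
      have h1 := h x y hx hy hx1 hy1 hxy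
      have e : ∑ a ∈ range (N + 2), ∑ b ∈ range (N + 2), c a b * x ^ a * y ^ b =
          (x ^ 2 * y ^ 2) * ∑ a ∈ range N, ∑ b ∈ range N, c (a + 2) (b + 2) * x ^ a * y ^ b := by
        rw [Finset.mul_sum, Finset.sum_range_succ', Finset.sum_range_succ']
        have z0 : ∑ b ∈ range (N + 2), c 0 b * x ^ 0 * y ^ b = 0 :=
          Finset.sum_eq_zero fun b hb => by
            have h' : c 0 b = 0 := (hr b (mem_range.1 hb)).1
            rw [h']; ring
        have z1 : ∑ b ∈ range (N + 2), c (0 + 1) b * x ^ (0 + 1) * y ^ b = 0 :=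
          Finset.sum_eq_zero fun b hb => by
            have h' : c 1 b = 0 := (hr b (mem_range.1 hb)).2
            rw [zero_add, h']; ring
        rw [z0, z1, add_zero, add_zero]
        refine Finset.sum_congr rfl fun a ha => ?_
        have ha' : a + 1 + 1 < N + 2 := by have := mem_range.1 ha; omega
        rw [Finset.mul_sum, Finset.sum_range_succ', Finset.sum_range_succ']
        have q0 := (hc (a + 1 + 1) ha').1
        have q1 := (hc (a + 1 + 1) ha').2
        rw [show (0 + 1) = 1 from rfl, q0, q1]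
        simp only [zero_mul, add_zero]
        refine Finset.sum_congr rfl fun b _ => ?_
        rw [show a + 1 + 1 = a + 2 from rfl, show b + 1 + 1 = b + 2 from rfl]
        ring
      rw [e] at h1
      have hpos : 0 < x ^ 2 * y ^ 2 := by positivity
      by_contra hcon
      push Not at hcon
      nlinarith [mul_pos hpos hcon])
    intro a ha b hb
    rcases Nat.lt_or_ge a 2 with ha2 | ha2
    · have : a = 0 ∨ a = 1 := by omega
      rcases this with rfl | rfl
      · exact (hr b hb).1
      · exact (hr b hb).2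
    · rcases Nat.lt_or_ge b 2 with hb2 | hb2
      · have : b = 0 ∨ b = 1 := by omega
        rcases this with rfl | rfl
        · exact (hc a ha).1
        · exact (hc a ha).2
      · have := key (a - 2) (by omega) (b - 2) (by omega)
        simpa [Nat.sub_add_cancel ha2, Nat.sub_add_cancel hb2] using this

/-- For every `N` there is a probability distribution on finitely many points of the square
`[-1,1]²`, none of them with both coordinates nonnegative, with all mixed moments of degrees
below `N` in each variable positive. -/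
theorem moments (N : ℕ) : ∃ (ι : Type) (t : Finset ι) (w x y : ι → ℝ),
    (∀ i ∈ t, 0 ≤ w i) ∧ ∑ i ∈ t, w i = 1 ∧
    (∀ i ∈ t, |x i| ≤ 1 ∧ |y i| ≤ 1 ∧ (x i < 0 ∨ y i < 0)) ∧
    ∀ a < N, ∀ b < N, 0 < ∑ i ∈ t, w i * (x i ^ a * y i ^ b) := by
  classical
  let E := Fin N × Fin N → ℝ
  let m : ℝ × ℝ → E := fun z i => z.1 ^ (i.1 : ℕ) * z.2 ^ (i.2 : ℕ)
  let S : Set (ℝ × ℝ) := {z | |z.1| ≤ 1 ∧ |z.2| ≤ 1 ∧ (z.1 < 0 ∨ z.2 < 0)}
  let K : Set E := convexHull ℝ (m '' S)
  let P : Set E := Set.pi Set.univ fun _ => Set.Ioi (0:ℝ)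
  by_cases hd : Disjoint P K
  · exfalso
    have hPo : IsOpen P := isOpen_set_pi Set.finite_univ fun _ _ => isOpen_Ioi
    have hPc : Convex ℝ P := convex_pi fun _ _ => convex_Ioi 0
    obtain ⟨f, u, hfP, hfK⟩ := geometric_hahn_banach_open hPc hPo (convex_convexHull ℝ _) hd
    let one : E := fun _ => 1
    have hmem : ∀ v : E, (∀ i, 0 < v i) → v ∈ P := fun v hv i _ => hv i
    have hu : 0 ≤ u := by
      by_contra hc
      push Not at hc
      have h1 : ∀ δ : ℝ, 0 < δ → δ * f one < u := by
        intro δ hδ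
        have := hfP (δ • one) (hmem _ fun i => by
          show 0 < δ * 1
          linarith)
        simpa using this
      have h2 := h1 (1 / 2 * (-u) / (|f one| + 1)) (by
        have : 0 < |f one| + 1 := by positivity
        have : 0 < -u := by linarith
        positivity)
      have h3 : |1 / 2 * (-u) / (|f one| + 1) * f one| ≤ 1 / 2 * (-u) := by
        rw [abs_mul, abs_div, abs_of_pos (show 0 < |f one| + 1 by positivity),
          abs_of_pos (show 0 < 1 / 2 * (-u) by linarith), div_mul_eq_mul_div,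
          div_le_iff₀ (by positivity)]
        have : 0 < 1 / 2 * (-u) := by linarith
        nlinarith [abs_nonneg (f one)]
      have := (abs_le.1 h3).1
      linarith
    have hei : ∀ i, f (Pi.single i 1) ≤ 0 := by
      intro i
      by_contra hc
      push Not at hc
      have h1 : ∀ s : ℝ, 0 ≤ s → s * f (Pi.single i 1) + f one < u := by
        intro s hs
        have := hfP (s • (Pi.single i (1:ℝ) : E) + one) (hmem _ fun j => by
          show 0 < s * (Pi.single i (1:ℝ) : E) j + 1
          by_cases hj : j = i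
          · subst hj
            rw [Pi.single_eq_same]
            linarith
          · rw [Pi.single_eq_of_ne hj]
            linarith)
        simpa using this
      have h2 := h1 ((|u| + |f one|) / f (Pi.single i 1)) (by positivity)
      rw [div_mul_cancel₀ _ hc.ne'] at h2
      have := le_abs_self u
      have := neg_abs_le (f one)
      linarith
    have hf : ∀ v : E, f v = ∑ i, v i * f (Pi.single i 1) := by
      intro v
      have : v = ∑ i, v i • (Pi.single i (1:ℝ) : E) := by
        ext j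
        simp [Finset.sum_apply, Pi.single_apply]
      conv_lhs => rw [this]
      rw [map_sum]
      simp
    let q : Fin N × Fin N → ℝ := fun i => - f (Pi.single i 1)
    let c : ℕ → ℕ → ℝ := fun a b => if h : a < N ∧ b < N then q (⟨a, h.1⟩, ⟨b, h.2⟩) else 0
    have hc0 : ∀ a b, 0 ≤ c a b := by
      intro a b
      simp only [c]
      split_ifs with h
      · simp only [q]; linarith [hei (⟨a, h.1⟩, ⟨b, h.2⟩)]
      · exact le_refl _
    have hsum : ∀ x y : ℝ, ∑ a ∈ range N, ∑ b ∈ range N, c a b * x ^ a * y ^ b = - f (m (x, y)) := by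
      intro x y
      rw [hf, Fintype.sum_prod_type, Finset.sum_range, ← Finset.sum_neg_distrib]
      refine Finset.sum_congr rfl fun a _ => ?_
      rw [Finset.sum_range, ← Finset.sum_neg_distrib]
      refine Finset.sum_congr rfl fun b _ => ?_
      simp only [c, q, m]
      rw [dif_pos ⟨a.2, b.2⟩]
      ring
    have hz := descent N c hc0 (by
      intro x y _ _ hx hy hxy
      rw [hsum]
      have := hfK (m (x, y)) (subset_convexHull ℝ _ ⟨(x, y), ⟨hx, hy, hxy⟩, rfl⟩)
      linarith)
    have hq : ∀ i, f (Pi.single i 1) = 0 := by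
      intro i
      have := hz i.1 i.1.2 i.2 i.2.2
      simp only [c] at this
      rw [dif_pos ⟨i.1.2, i.2.2⟩] at this
      simp only [q] at this
      linarith
    have hf0 : ∀ v : E, f v = 0 := by
      intro v; rw [hf]
      exact Finset.sum_eq_zero fun i _ => by rw [hq i, mul_zero]
    have h1 := hfP one (hmem _ fun i => by simp [one])
    have h2 := hfK (m (-1, -1)) (subset_convexHull ℝ _ ⟨(-1, -1), ⟨by simp, by simp, by
      left; norm_num⟩, rfl⟩)
    rw [hf0] at h1 h2
    linarith
  · rw [Set.not_disjoint_iff] at hd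
    obtain ⟨v, hvP, hvK⟩ := hd
    have hvK' : v ∈ convexHull ℝ (m '' S) := hvK
    rw [_root_.convexHull_eq] at hvK'
    obtain ⟨ι, t, w, z, hw0, hw1, hz, hzv⟩ := hvK'
    choose! s hs hsz using hz
    refine ⟨ι, t, w, fun i => (s i).1, fun i => (s i).2, hw0, hw1, fun i hi => hs i hi, ?_⟩
    intro a ha b hb
    have hv := hvP (⟨a, ha⟩, ⟨b, hb⟩) (Set.mem_univ _)
    rw [← hzv, Finset.centerMass_eq_of_sum_1 _ _ hw1] at hv
    have e : (∑ i ∈ t, w i • (z i : Fin N × Fin N → ℝ) : Fin N × Fin N → ℝ)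
        (⟨a, ha⟩, ⟨b, hb⟩) = ∑ i ∈ t, w i * z i (⟨a, ha⟩, ⟨b, hb⟩) := by
      rw [Finset.sum_apply]
      rfl
    have hv' : 0 < (∑ i ∈ t, w i • (z i : Fin N × Fin N → ℝ) : Fin N × Fin N → ℝ)
        (⟨a, ha⟩, ⟨b, hb⟩) := hv
    rw [e] at hv'
    refine lt_of_lt_of_eq hv' ?_
    refine Finset.sum_congr rfl fun i hi => ?_
    rw [← hsz i hi]

end Pool.Agent.Q322.SN
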